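import Pool.Agent.J4H78.GP.Stm
import Pool.Agent.Y772.DK.Cc

set_option autoImplicit false

/-! # Project GP (helper78), row MP_d0fd9b_nt: the part BAS -/

open NumberField Filter Topology
open Pool.Agent.Y773 (VM cc hf FT PIdl gen)

namespace Pool.Agent.J4H67.GP

open Pool.Agent.J4H78.GP

/-- the values of a character of the class group have norm at most one -/
theorem norm_le {K : Type} [Field K] [NumberField K] (ψ : Ideal (𝓞 K) →*₀ ℂ) (h : IsCl K ψ)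
    (𝔞 : Ideal (𝓞 K)) : ‖ψ 𝔞‖ ≤ 1 := by
  by_cases h0 : 𝔞 = ⊥
  · rw [h0, ← Ideal.zero_eq_bot, map_zero, norm_zero]
    exact zero_le_one
  · have hmem : 𝔞 ∈ nonZeroDivisors (Ideal (𝓞 K)) := mem_nonZeroDivisors_of_ne_zero h0
    set n := Fintype.card (ClassGroup (𝓞 K)) with hn
    have hn0 : n ≠ 0 := Fintype.card_ne_zero
    have h1 : ClassGroup.mk0 ((⟨𝔞, hmem⟩ : nonZeroDivisors (Ideal (𝓞 K))) ^ n) = 1 := by
      rw [map_pow, hn]
      exact pow_card_eq_one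
    rw [ClassGroup.mk0_eq_one_iff] at h1
    obtain ⟨⟨x, hx⟩⟩ := h1
    have hx' : 𝔞 ^ n = Ideal.span {x} := by
      rw [← Ideal.submodule_span_eq]
      simpa using hx
    have hx0 : x ≠ 0 := by
      intro h2
      rw [h2, Ideal.span_singleton_eq_bot.2 rfl] at hx'
      exact h0 (pow_eq_zero_iff hn0 |>.1 hx')
    have h2 : ψ 𝔞 ^ n = 1 := by
      rw [← map_pow, hx', h x hx0]
    exact (Complex.norm_eq_one_of_pow_eq_one h2 hn0).le

/-- the coefficient at a prime `q` is a natural number, at least one if `q` splits -/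
theorem g_nat (hSPL : S_SPL) (p : ℕ) (B : ℝ) (K : Type) [Field K] [NumberField K] (hp : p.Prime)
    (hQD : QD p K) (ψ : Ideal (𝓞 K) →*₀ ℂ)
    (h1 : ∀ 𝔮 : Ideal (𝓞 K), (Ideal.absNorm 𝔮).Prime → ((Ideal.absNorm 𝔮 : ℕ) : ℝ) ≤ B → ψ 𝔮 = 1)
    (q : ℕ) (hq : q.Prime) (hqB : (q : ℝ) ≤ B) :
    ∃ m : ℕ, gg p ψ q = m ∧ (Spl p q → 1 ≤ m) := by
  unfold gg
  split_ifs with hc
  · have hfin : {𝔭 : Ideal (𝓞 K) | Ideal.absNorm 𝔭 = q}.Finite :=
      Ideal.finite_setOfPred_absNorm_eq q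
    refine ⟨hfin.toFinset.card, ?_, fun hs => ?_⟩
    · rw [Pool.Agent.Y772.DK.cc_prime ψ hq, finsum_mem_eq_finite_toFinset_sum _ hfin,
        Finset.card_eq_sum_ones]
      push_cast
      refine Finset.sum_congr rfl fun 𝔭 h𝔭 => ?_
      rw [Set.Finite.mem_toFinset] at h𝔭
      have h𝔭' : Ideal.absNorm 𝔭 = q := h𝔭
      exact h1 𝔭 (by rw [h𝔭']; exact hq) (by rw [h𝔭']; exact hqB)
    · obtain ⟨𝔮, h𝔮⟩ := hSPL p q K hp hQD hs
      refine Finset.card_pos.2 ⟨𝔮, ?_⟩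
      rw [Set.Finite.mem_toFinset]
      exact h𝔮
  · refine ⟨0, by simp, fun hs => ?_⟩
    exact absurd ((Nat.Prime.coprime_iff_not_dvd hq).2 hs.2.1) hc

/-- the sum over the products of `k` elements of `Q` -/
theorem sum_ge (Q : Finset ℕ) (hQ : ∀ q ∈ Q, q.Prime) (k s : ℕ) (g : ℕ → ℂ) (m : ℕ → ℕ)
    (hm : ∀ q ∈ Q, g q = m q) (R : Finset ℕ) (hR : R ⊆ Q) (h1 : ∀ q ∈ R, 1 ≤ m q)
    (hs : s ≤ R.card) :
    (s.choose k : ℝ) ≤ ‖∑ n ∈ (Q.powersetCard k).image (fun T => ∏ q ∈ T, q),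
      ∏ q ∈ n.primeFactors, g q‖ := by
  have hpf : ∀ T ∈ Q.powersetCard k, (∏ q ∈ T, q).primeFactors = T := by
    intro T hT
    rw [Finset.mem_powersetCard] at hT
    exact Nat.primeFactors_prod fun p hp => hQ p (hT.1 hp)
  have hinj : Set.InjOn (fun T : Finset ℕ => ∏ q ∈ T, q) (Q.powersetCard k : Set (Finset ℕ)) := by
    intro T hT T' hT' he
    have he' : ∏ q ∈ T, q = ∏ q ∈ T', q := he
    rw [← hpf T hT, ← hpf T' hT', he']
  rw [Finset.sum_image hinj]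
  have hsum : ∑ T ∈ Q.powersetCard k, ∏ q ∈ (∏ q ∈ T, q).primeFactors, g q =
      ((∑ T ∈ Q.powersetCard k, ∏ q ∈ T, m q : ℕ) : ℂ) := by
    push_cast
    refine Finset.sum_congr rfl fun T hT => ?_
    rw [hpf T hT]
    rw [Finset.mem_powersetCard] at hT
    exact Finset.prod_congr rfl fun q hq => hm q (hT.1 hq)
  rw [hsum, Complex.norm_natCast]
  have h2 : s.choose k ≤ ∑ T ∈ Q.powersetCard k, ∏ q ∈ T, m q := by
    calc s.choose k ≤ R.card.choose k := Nat.choose_le_choose k hs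
      _ = ∑ T ∈ R.powersetCard k, 1 := by
          rw [← Finset.card_powersetCard, Finset.card_eq_sum_ones]
      _ ≤ ∑ T ∈ R.powersetCard k, ∏ q ∈ T, m q := by
          refine Finset.sum_le_sum fun T hT => ?_
          rw [Finset.mem_powersetCard] at hT
          exact Finset.one_le_prod' fun q hq => h1 q (hT.1 hq)
      _ ≤ _ := Finset.sum_le_sum_of_subset (Finset.powersetCard_mono hR)
  exact_mod_cast h2

/-- the diagonal terms -/
theorem diag (hBD : S_BD) (hW : S_W) (ε : ℝ) (hε : 0 < ε) : ∃ C : ℝ, 0 < C ∧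
    ∀ G a : ℕ → ℂ, IsCf G a → (∀ d, ‖G d‖ ≤ 4) → ∀ X : ℝ, 0 < X →
      (Summable fun n : ℕ => ((W ((n : ℝ) / X) : ℝ) : ℂ) * a n) ∧
      ‖∑' n : ℕ, ((W ((n : ℝ) / X) : ℝ) : ℂ) * a n‖ ≤ C * X ^ (1 + ε) := by
  obtain ⟨hW0, hW1, -⟩ := hW
  obtain ⟨CW, hCW, hWb⟩ := hW1 (1 + ε) (by linarith)
  obtain ⟨CD, hCD, hD⟩ := hBD (ε / 2) (by positivity)
  have hsum : Summable fun n : ℕ => (n : ℝ) ^ (-(1 + ε / 2)) :=
    Real.summable_nat_rpow.2 (by linarith)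
  set Z : ℝ := ∑' n : ℕ, (n : ℝ) ^ (-(1 + ε / 2)) with hZ
  have hZ0 : 0 ≤ Z := tsum_nonneg fun n => Real.rpow_nonneg (Nat.cast_nonneg n) _
  refine ⟨CW * CD * Z + 1, by positivity, fun G a ha hG X hX => ?_⟩
  have hterm : ∀ n : ℕ, ‖((W ((n : ℝ) / X) : ℝ) : ℂ) * a n‖ ≤
      (CW * CD * X ^ (1 + ε)) * (n : ℝ) ^ (-(1 + ε / 2)) := by
    intro n
    rcases Nat.eq_zero_or_pos n with h | h
    · rw [h, ha.1, mul_zero, norm_zero]
      positivity
    · have hn : (0 : ℝ) < n := by exact_mod_cast h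
      rw [norm_mul, Complex.norm_real, Real.norm_of_nonneg (hW0 _)]
      calc W ((n : ℝ) / X) * ‖a n‖ ≤ (CW * ((n : ℝ) / X) ^ (-(1 + ε))) * (CD * (n : ℝ) ^ (ε / 2)) :=
            mul_le_mul (hWb _ (by positivity)) (hD G a ha hG n h) (norm_nonneg _) (by positivity)
        _ = (CW * CD * X ^ (1 + ε)) * (n : ℝ) ^ (-(1 + ε / 2)) := by
            rw [Real.div_rpow hn.le hX.le, Real.rpow_neg hX.le, div_inv_eq_mul,
              show -(1 + ε / 2) = -(1 + ε) + ε / 2 by ring, Real.rpow_add hn]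
            ring
  have hs2 : Summable fun n : ℕ => (CW * CD * X ^ (1 + ε)) * (n : ℝ) ^ (-(1 + ε / 2)) :=
    hsum.mul_left _
  have hs1 : Summable fun n : ℕ => ‖((W ((n : ℝ) / X) : ℝ) : ℂ) * a n‖ :=
    Summable.of_nonneg_of_le (fun n => norm_nonneg _) hterm hs2
  refine ⟨hs1.of_norm, (norm_tsum_le_tsum_norm hs1).trans ?_⟩
  calc ∑' n : ℕ, ‖((W ((n : ℝ) / X) : ℝ) : ℂ) * a n‖
      ≤ ∑' n : ℕ, (CW * CD * X ^ (1 + ε)) * (n : ℝ) ^ (-(1 + ε / 2)) :=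
        hs1.tsum_le_tsum hterm hs2
    _ = CW * CD * Z * X ^ (1 + ε) := by
        rw [tsum_mul_left, ← hZ]
        ring
    _ ≤ (CW * CD * Z + 1) * X ^ (1 + ε) := by
        have : 0 ≤ X ^ (1 + ε) := Real.rpow_nonneg hX.le _
        nlinarith

/-- **BAS** -/
theorem t_BAS (hPAIR : S_PAIR) (hLS : S_LS) (hBD : S_BD) (hW : S_W) (hEX : S_EX) (hSPL : S_SPL) :
    S_BAS := by
  intro ε hε
  obtain ⟨CP, hCP, hpair⟩ := hPAIR
  obtain ⟨C1, hC1, hdiag⟩ := diag hBD hW ε hε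
  obtain ⟨w₀, hw₀, hw⟩ := hW.2.2
  have hW0 := hW.1
  refine ⟨(C1 + CP) / w₀, by positivity, fun x k s X B Q E hX hQ hBX hE => ?_⟩
  have hX0 : 0 < X := by linarith
  -- the characters
  have hex : ∀ i : {p // p ∈ E}, ∃ g : ℕ → ℂ, (∀ d, ‖g d‖ ≤ 2) ∧
      (∃ m : ℕ → ℕ, ∀ q ∈ Q, g q = m q ∧ (Spl i.1 q → 1 ≤ m q)) ∧
      ∃ (K : Type) (_ : Field K) (_ : NumberField K), QD i.1 K ∧ ∃ ψ : Ideal (𝓞 K) →*₀ ℂ,
        IsCl K ψ ∧ NonTriv2 ψ ∧ g = gg i.1 ψ := by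
    rintro ⟨p, hp⟩
    obtain ⟨hpp, -, ⟨K, fK, nK, hQD, ψ, hcl, hnt, h1⟩, -⟩ := hE p hp
    refine ⟨gg p ψ, fun d => ?_, ?_, K, fK, nK, hQD, ψ, hcl, hnt, rfl⟩
    · unfold gg
      split_ifs
      · have := Pool.Agent.Y772.DK.norm_cc_le ψ (norm_le ψ hcl) d
        rw [hQD.deg] at this
        exact_mod_cast this
      · rw [norm_zero]
        norm_num
    · have h2 : ∀ q : ℕ, ∃ m : ℕ, q ∈ Q → (gg p ψ q = m ∧ (Spl p q → 1 ≤ m)) := by
        intro q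
        by_cases hq : q ∈ Q
        · obtain ⟨m, hm⟩ := g_nat hSPL p B K hpp hQD ψ h1 q (hQ q hq).1 (hQ q hq).2
          exact ⟨m, fun _ => hm⟩
        · exact ⟨0, fun h => absurd h hq⟩
      choose m hm using h2
      exact ⟨m, hm⟩
  choose g hg2 hgm hgK using hex
  -- the coefficients
  have hexa : ∀ i j : {p // p ∈ E}, ∃ a : ℕ → ℂ,
      IsCf (fun d => g i d * (starRingEnd ℂ) (g j d)) a := fun i j => (hEX _).exists
  choose a ha using hexa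
  have hG4 : ∀ i j : {p // p ∈ E}, ∀ d, ‖g i d * (starRingEnd ℂ) (g j d)‖ ≤ 4 := by
    intro i j d
    rw [norm_mul, RCLike.norm_conj]
    calc ‖g i d‖ * ‖g j d‖ ≤ 2 * 2 :=
          mul_le_mul (hg2 i d) (hg2 j d) (norm_nonneg _) (by norm_num)
      _ = 4 := by norm_num
  have hdg : ∀ i j, ‖∑' n : ℕ, ((W ((n : ℝ) / X) : ℝ) : ℂ) * a i j n‖ ≤ C1 * X ^ (1 + ε) :=
    fun i j => (hdiag _ _ (ha i j) (hG4 i j) X hX0).2
  have hoff : ∀ i j, i ≠ j → ‖∑' n : ℕ, ((W ((n : ℝ) / X) : ℝ) : ℂ) * a i j n‖ ≤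
      CP * (x : ℝ) ^ 24 / X := by
    intro i j hij
    obtain ⟨K, fK, nK, hQD, ψ, hcl, hnt, hgi⟩ := hgK i
    obtain ⟨K', fK', nK', hQD', ψ', hcl', hnt', hgj⟩ := hgK j
    obtain ⟨hpi, hpix, -, -⟩ := hE i.1 i.2
    obtain ⟨hpj, hpjx, -, -⟩ := hE j.1 j.2
    have hne : i.1 ≠ j.1 := fun h => hij (Subtype.ext h)
    have haij := ha i j
    rw [hgi, hgj] at haij
    have h3 := hpair i.1 j.1 K K' hpi hpj hne hQD hQD' ψ ψ' hcl hcl' hnt' (a i j) haij X hX0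
    refine h3.trans ?_
    have h4 : ((i.1 : ℝ) * (j.1 : ℝ)) ^ 12 ≤ (x : ℝ) ^ 24 := by
      have h5 : (i.1 : ℝ) * (j.1 : ℝ) ≤ (x : ℝ) * x := by
        have h6 : (i.1 : ℝ) ≤ x := by exact_mod_cast hpix
        have h7 : (j.1 : ℝ) ≤ x := by exact_mod_cast hpjx
        gcongr
      calc ((i.1 : ℝ) * (j.1 : ℝ)) ^ 12 ≤ ((x : ℝ) * x) ^ 12 :=
            pow_le_pow_left₀ (by positivity) h5 12
        _ = (x : ℝ) ^ 24 := by ring
    gcongr
  set D : ℝ := C1 * X ^ (1 + ε) + E.card * (CP * (x : ℝ) ^ 24 / X) with hD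
  have hrow : ∀ i : {p // p ∈ E}, ∑ j, ‖∑' n : ℕ, ((W ((n : ℝ) / X) : ℝ) : ℂ) * a i j n‖ ≤ D := by
    intro i
    classical
    rw [← Finset.add_sum_erase Finset.univ _ (Finset.mem_univ i)]
    refine add_le_add (hdg i i) ?_
    calc ∑ j ∈ Finset.univ.erase i, ‖∑' n : ℕ, ((W ((n : ℝ) / X) : ℝ) : ℂ) * a i j n‖
        ≤ ∑ j ∈ Finset.univ.erase i, (CP * (x : ℝ) ^ 24 / X) :=
          Finset.sum_le_sum fun j hj => hoff i j (Finset.ne_of_mem_erase hj).symm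
      _ ≤ ∑ j : {p // p ∈ E}, (CP * (x : ℝ) ^ 24 / X) :=
          Finset.sum_le_sum_of_subset_of_nonneg (Finset.erase_subset _ _)
            fun _ _ _ => by positivity
      _ = _ := by
          rw [Finset.sum_const, Finset.card_univ, Fintype.card_coe, nsmul_eq_mul]
  have hcol : ∀ j : {p // p ∈ E}, ∑ i, ‖∑' n : ℕ, ((W ((n : ℝ) / X) : ℝ) : ℂ) * a i j n‖ ≤ D := by
    intro j
    classical
    rw [← Finset.add_sum_erase Finset.univ _ (Finset.mem_univ j)]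
    refine add_le_add (hdg j j) ?_
    calc ∑ i ∈ Finset.univ.erase j, ‖∑' n : ℕ, ((W ((n : ℝ) / X) : ℝ) : ℂ) * a i j n‖
        ≤ ∑ i ∈ Finset.univ.erase j, (CP * (x : ℝ) ^ 24 / X) :=
          Finset.sum_le_sum fun i hi => hoff i j (Finset.ne_of_mem_erase hi)
      _ ≤ ∑ i : {p // p ∈ E}, (CP * (x : ℝ) ^ 24 / X) :=
          Finset.sum_le_sum_of_subset_of_nonneg (Finset.erase_subset _ _)
            fun _ _ _ => by positivity
      _ = _ := by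
          rw [Finset.sum_const, Finset.card_univ, Fintype.card_coe, nsmul_eq_mul]
  have hD0 : 0 ≤ D := by positivity
  set S : Finset ℕ := (Q.powersetCard k).image (fun T => ∏ q ∈ T, q) with hS
  have hSP : ∀ n ∈ S, Squarefree n ∧ w₀ ≤ W ((n : ℝ) / X) := by
    intro n hn
    rw [hS, Finset.mem_image] at hn
    obtain ⟨T, hT, rfl⟩ := hn
    rw [Finset.mem_powersetCard] at hT
    refine ⟨?_, hw _ ?_ ?_⟩
    · refine Finset.squarefree_prod_of_pairwise_isCoprime (fun p hp q hq hpq => ?_) fun q hq => ?_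
      · exact Nat.coprime_iff_isRelPrime.1
          ((Nat.coprime_primes (hQ p (hT.1 hp)).1 (hQ q (hT.1 hq)).1).2 hpq)
      · exact (hQ q (hT.1 hq)).1.prime.squarefree
    · have h3 : 0 < ∏ q ∈ T, q := Finset.prod_pos fun q hq => (hQ q (hT.1 hq)).1.pos
      have h4 : (0 : ℝ) < ((∏ q ∈ T, q : ℕ) : ℝ) := by exact_mod_cast h3
      positivity
    · rw [div_le_one hX0]
      push_cast
      calc ∏ q ∈ T, (q : ℝ) ≤ ∏ q ∈ T, B := by
            refine Finset.prod_le_prod (fun q _ => Nat.cast_nonneg q) fun q hq => (hQ q (hT.1 hq)).2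
        _ = B ^ k := by rw [Finset.prod_const, hT.2]
        _ ≤ X := hBX
  have hls := hLS {p // p ∈ E} g a ha (fun n => W ((n : ℝ) / X)) (fun n => hW0 _)
    (fun i j => (hdiag _ _ (ha i j) (hG4 i j) X hX0).1) D hD0 hrow hcol S w₀ hw₀ hSP
  have hlow : ∀ i : {p // p ∈ E}, (s.choose k : ℝ) ≤ ‖∑ n ∈ S, ∏ q ∈ n.primeFactors, g i q‖ := by
    intro i
    classical
    obtain ⟨m, hm⟩ := hgm i
    have hs := (hE i.1 i.2).2.2.2
    have hset : {q ∈ (Q : Set ℕ) | Spl i.1 q} = ((Q.filter fun q => Spl i.1 q : Finset ℕ) : Set ℕ) := by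
      ext q
      simp
    rw [hset, Set.ncard_coe_finset] at hs
    exact sum_ge Q (fun q hq => (hQ q hq).1) k s (g i) m (fun q hq => (hm q hq).1)
      (Q.filter fun q => Spl i.1 q) (Finset.filter_subset _ _)
      (fun q hq => (hm q (Finset.mem_filter.1 hq).1).2 (Finset.mem_filter.1 hq).2) hs
  have hScard : (S.card : ℝ) ≤ (Q.card.choose k : ℝ) := by
    have : S.card ≤ Q.card.choose k := by
      rw [← Finset.card_powersetCard]
      exact Finset.card_image_le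
    exact_mod_cast this
  have hfin : w₀ * ((E.card : ℝ) * (s.choose k : ℝ) ^ 2) ≤ D * (Q.card.choose k : ℝ) := by
    calc w₀ * ((E.card : ℝ) * (s.choose k : ℝ) ^ 2)
        = w₀ * ∑ i : {p // p ∈ E}, (s.choose k : ℝ) ^ 2 := by
          rw [Finset.sum_const, Finset.card_univ, Fintype.card_coe, nsmul_eq_mul]
      _ ≤ w₀ * ∑ i : {p // p ∈ E}, ‖∑ n ∈ S, ∏ q ∈ n.primeFactors, g i q‖ ^ 2 := by
          gcongr with i _
          exact hlow i
      _ ≤ D * S.card := hls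
      _ ≤ _ := by gcongr
  have h9 : D ≤ (C1 + CP) * (X ^ (1 + ε) + E.card * (x : ℝ) ^ 24 / X) := by
    have h10 : 0 ≤ CP * X ^ (1 + ε) := by positivity
    have h11 : 0 ≤ C1 * (E.card * (x : ℝ) ^ 24 / X) := by positivity
    have h12 : (C1 + CP) * (X ^ (1 + ε) + E.card * (x : ℝ) ^ 24 / X) =
      D + CP * X ^ (1 + ε) + C1 * (E.card * (x : ℝ) ^ 24 / X) := by
      rw [hD]
      ring
    linarith
  have h13 : w₀ * ((E.card : ℝ) * (s.choose k : ℝ) ^ 2) ≤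
      w₀ * ((C1 + CP) / w₀ * (X ^ (1 + ε) + E.card * (x : ℝ) ^ 24 / X) * (Q.card.choose k : ℝ)) := by
    refine hfin.trans ?_
    calc D * (Q.card.choose k : ℝ)
        ≤ ((C1 + CP) * (X ^ (1 + ε) + E.card * (x : ℝ) ^ 24 / X)) * (Q.card.choose k : ℝ) := by
          gcongr
      _ = _ := by
          field_simp
  exact le_of_mul_le_mul_left h13 hw₀

end Pool.Agent.J4H67.GP
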