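import Pool.Agent.J4H78.GP.Stm
import Pool.Agent.H510R2.Div

set_option autoImplicit false

/-! # Project GP (helper78), row MP_d0fd9b_nt: the part BD -/

open Finset

namespace Pool.Agent.J4H67.GP

open Pool.Agent.J4H78.GP

/-- the fourfold divisor function -/
noncomputable def d4 (n : ℕ) : ℝ :=
  ∑ x ∈ n.divisorsAntidiagonal, (x.1.divisors.card : ℝ) * (x.2.divisors.card : ℝ)

/-- multiplication by the logarithm is a derivation -/
theorem der (f g : ArithmeticFunction ℝ) (n : ℕ) :
    (f * g) n * Real.log n = ∑ x ∈ n.divisorsAntidiagonal,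
      (f x.1 * Real.log x.1 * g x.2 + f x.1 * (g x.2 * Real.log x.2)) := by
  rw [ArithmeticFunction.mul_apply, Finset.sum_mul]
  refine Finset.sum_congr rfl fun x hx => ?_
  obtain ⟨h1, h2⟩ := Nat.mem_divisorsAntidiagonal.1 hx
  have h3 : x.1 ≠ 0 := fun h => h2 (by rw [← h1, h, zero_mul])
  have h4 : x.2 ≠ 0 := fun h => h2 (by rw [← h1, h, mul_zero])
  rw [← h1]
  push_cast
  rw [Real.log_mul (by exact_mod_cast h3) (by exact_mod_cast h4)]
  ring

/-- multiplication by the logarithm, as an arithmetic function -/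
noncomputable def lg (f : ArithmeticFunction ℝ) : ArithmeticFunction ℝ :=
  ⟨fun n => f n * Real.log n, by simp⟩

theorem lg_mul (f g : ArithmeticFunction ℝ) : lg (f * g) = lg f * g + f * lg g := by
  ext n
  rw [ArithmeticFunction.add_apply, ArithmeticFunction.mul_apply, ArithmeticFunction.mul_apply,
    ← Finset.sum_add_distrib]
  exact der f g n

/-- `ζ` with real values -/
noncomputable def z : ArithmeticFunction ℝ := ((ArithmeticFunction.zeta : ArithmeticFunction ℕ) : ArithmeticFunction ℝ)

theorem lg_z : lg z = ArithmeticFunction.vonMangoldt * z := by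
  unfold z
  rw [ArithmeticFunction.vonMangoldt_mul_zeta]
  ext n
  show ((ArithmeticFunction.zeta n : ℕ) : ℝ) * Real.log n = ArithmeticFunction.log n
  rw [ArithmeticFunction.log_apply, ArithmeticFunction.zeta_apply]
  split_ifs with h
  · rw [h]
    simp
  · simp

theorem lg_z4 : lg (z * z * (z * z)) = 4 * ArithmeticFunction.vonMangoldt * (z * z * (z * z)) := by
  rw [lg_mul, lg_mul, lg_z]
  ring

theorem zz (n : ℕ) : (z * z) n = (n.divisors.card : ℝ) := by
  unfold z
  rw [ArithmeticFunction.coe_zeta_mul_apply, Finset.card_eq_sum_ones]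
  push_cast
  refine Finset.sum_congr rfl fun d hd => ?_
  have h1 : d ≠ 0 := (Nat.pos_of_mem_divisors hd).ne'
  show ((ArithmeticFunction.zeta d : ℕ) : ℝ) = 1
  rw [ArithmeticFunction.zeta_apply, if_neg h1]
  simp

theorem z4 (n : ℕ) : (z * z * (z * z)) n = d4 n := by
  rw [ArithmeticFunction.mul_apply]
  unfold d4
  exact Finset.sum_congr rfl fun x _ => by rw [zz, zz]

/-- `d₄ log = 4 Λ * d₄` -/
theorem d4_rec (n : ℕ) : d4 n * Real.log n =
    ∑ d ∈ n.divisors, (ArithmeticFunction.vonMangoldt d : ℝ) * 4 * d4 (n / d) := by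
  have h1 : lg (z * z * (z * z)) n = (4 * ArithmeticFunction.vonMangoldt * (z * z * (z * z))) n := by
    rw [lg_z4]
  have h2 : lg (z * z * (z * z)) n = d4 n * Real.log n := by
    show (z * z * (z * z)) n * Real.log n = _
    rw [z4]
  rw [← h2, h1, mul_assoc]
  have h3 : ((4 : ArithmeticFunction ℝ) * (ArithmeticFunction.vonMangoldt * (z * z * (z * z)))) n =
      4 * (ArithmeticFunction.vonMangoldt * (z * z * (z * z))) n := by
    have h4 : (4 : ArithmeticFunction ℝ) * (ArithmeticFunction.vonMangoldt * (z * z * (z * z))) =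
        (ArithmeticFunction.vonMangoldt * (z * z * (z * z))) +
        (ArithmeticFunction.vonMangoldt * (z * z * (z * z))) +
        (ArithmeticFunction.vonMangoldt * (z * z * (z * z))) +
        (ArithmeticFunction.vonMangoldt * (z * z * (z * z))) := by ring
    rw [h4]
    simp only [ArithmeticFunction.add_apply]
    ring
  rw [h3, ArithmeticFunction.mul_apply, Finset.mul_sum,
    Nat.sum_divisorsAntidiagonal (fun d e =>
      4 * (ArithmeticFunction.vonMangoldt d * (z * z * (z * z)) e))]
  refine Finset.sum_congr rfl fun d _ => ?_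
  rw [z4]
  ring

theorem d4_one : d4 1 = 1 := by
  unfold d4
  simp

theorem d4_nonneg (n : ℕ) : 0 ≤ d4 n := by
  unfold d4
  positivity

theorem d4_le (n : ℕ) (hn : n ≠ 0) : d4 n ≤ (n.divisors.card : ℝ) ^ 3 := by
  unfold d4
  have h1 : ∀ x ∈ n.divisorsAntidiagonal, (x.1.divisors.card : ℝ) * (x.2.divisors.card : ℝ) ≤
      (n.divisors.card : ℝ) * n.divisors.card := by
    intro x hx
    obtain ⟨h1, h2⟩ := Nat.mem_divisorsAntidiagonal.1 hx
    have h3 : x.1.divisors.card ≤ n.divisors.card :=
      Finset.card_le_card (Nat.divisors_subset_of_dvd hn ⟨x.2, h1.symm⟩)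
    have h4 : x.2.divisors.card ≤ n.divisors.card :=
      Finset.card_le_card (Nat.divisors_subset_of_dvd hn ⟨x.1, by rw [mul_comm]; exact h1.symm⟩)
    have h3' : (x.1.divisors.card : ℝ) ≤ n.divisors.card := by exact_mod_cast h3
    have h4' : (x.2.divisors.card : ℝ) ≤ n.divisors.card := by exact_mod_cast h4
    gcongr
  have h2 := Finset.sum_le_card_nsmul _ _ _ h1
  have h3 : n.divisorsAntidiagonal.card = n.divisors.card := by
    rw [← Nat.map_div_right_divisors, Finset.card_map]
  rw [h3, nsmul_eq_mul] at h2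
  calc _ ≤ _ := h2
    _ = _ := by ring

theorem a_le (G a : ℕ → ℂ) (ha : IsCf G a) (hG : ∀ d, ‖G d‖ ≤ 4) (n : ℕ) (hn : 1 ≤ n) :
    ‖a n‖ ≤ d4 n := by
  induction n using Nat.strong_induction_on with
  | _ n ih =>
    rcases Nat.lt_or_ge 1 n with h1 | h1
    · have hlog : 0 < Real.log n := Real.log_pos (by exact_mod_cast h1)
      have h2 := ha.2.2 n hn
      have h3 : ‖a n‖ * Real.log n ≤ d4 n * Real.log n := by
        calc ‖a n‖ * Real.log n = ‖a n * (Real.log n : ℂ)‖ := by
              rw [norm_mul, Complex.norm_real, Real.norm_of_nonneg hlog.le]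
          _ = ‖∑ d ∈ n.divisors, (ArithmeticFunction.vonMangoldt d : ℂ) * G d * a (n / d)‖ := by
              rw [h2]
          _ ≤ ∑ d ∈ n.divisors, ‖(ArithmeticFunction.vonMangoldt d : ℂ) * G d * a (n / d)‖ :=
              norm_sum_le _ _
          _ ≤ ∑ d ∈ n.divisors, (ArithmeticFunction.vonMangoldt d : ℝ) * 4 * d4 (n / d) := by
              refine Finset.sum_le_sum fun d hd => ?_
              have hd0 := Nat.pos_of_mem_divisors hd
              have hdn := Nat.dvd_of_mem_divisors hd
              have hΛ : (0 : ℝ) ≤ ArithmeticFunction.vonMangoldt d :=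
                ArithmeticFunction.vonMangoldt_nonneg
              rw [norm_mul, norm_mul, Complex.norm_real, Real.norm_of_nonneg hΛ]
              rcases Nat.lt_or_ge 1 d with h4 | h4
              · have h5 : n / d < n := Nat.div_lt_self (by omega) h4
                have h6 : 1 ≤ n / d := Nat.div_pos (Nat.le_of_dvd (by omega) hdn) hd0
                have h7 := ih (n / d) h5 h6
                have h8 := hG d
                gcongr
              · have h5 : d = 1 := by omega
                rw [h5, ArithmeticFunction.vonMangoldt_apply_one]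
                simp
          _ = _ := (d4_rec n).symm
      exact le_of_mul_le_mul_right h3 hlog
    · have h2 : n = 1 := by omega
      rw [h2, ha.2.1, d4_one, norm_one]

/-- **BD** -/
theorem t_BD : S_BD := by
  intro ε hε
  obtain ⟨C, hC, hd⟩ := Pool.Agent.H510R2.divisor_bound (ε / 3) (by positivity)
  refine ⟨C ^ 3, by positivity, fun G a ha hG n hn => ?_⟩
  have hn0 : (0 : ℝ) < n := by exact_mod_cast hn
  calc ‖a n‖ ≤ d4 n := a_le G a ha hG n hn
    _ ≤ (n.divisors.card : ℝ) ^ 3 := d4_le n (by omega)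
    _ ≤ (C * (n : ℝ) ^ (ε / 3)) ^ 3 := pow_le_pow_left₀ (Nat.cast_nonneg _) (hd n hn) 3
    _ = C ^ 3 * (n : ℝ) ^ ε := by
        rw [mul_pow, ← Real.rpow_natCast ((n : ℝ) ^ (ε / 3)) 3, ← Real.rpow_mul hn0.le]
        congr 2
        push_cast
        ring

end Pool.Agent.J4H67.GP
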