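import Pool.Agent.J4H78.GP.Stm

set_option autoImplicit false

/-! # Project GP (helper78), row MP_d0fd9b_nt: the part CNT -/

open Filter Topology

namespace Pool.Agent.J4H67.GP

open Pool.Agent.J4H78.GP

/-- `C(q, k) ≤ C(s, k)² (40000 k / q) ^ k` if `s ≥ q / 100` and `s ≥ 2 k`. -/
theorem choose_bd (q s k : ℕ) (hq : 0 < q) (h : (q : ℝ) / 100 ≤ s) (h2 : 2 * k ≤ s) :
    (q.choose k : ℝ) ≤ ((s.choose k : ℝ)) ^ 2 * (40000 * (k : ℝ) / q) ^ k := by
  have hq0 : (0 : ℝ) < q := by exact_mod_cast hq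
  have hf : (0 : ℝ) < (k.factorial : ℝ) := by exact_mod_cast Nat.factorial_pos k
  have h1 : (q.choose k : ℝ) * k.factorial ≤ (q : ℝ) ^ k := by
    have := Nat.choose_le_pow_div (α := ℝ) k q
    rwa [le_div_iff₀ hf] at this
  have h3 : ((q : ℝ) / 200) ^ k ≤ (k.factorial : ℝ) * s.choose k := by
    have h4 : ((s + 1 - k : ℕ) : ℝ) ^ k ≤ (k.factorial : ℝ) * s.choose k := by
      have := Nat.pow_le_choose (α := ℝ) k s
      rw [div_le_iff₀ hf] at this
      linarith [this, mul_comm (k.factorial : ℝ) (s.choose k : ℝ)]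
    refine le_trans (pow_le_pow_left₀ (by positivity) ?_ k) h4
    have h5 : (s + 1 - k : ℕ) = s + 1 - k := rfl
    rw [Nat.cast_sub (by omega)]
    push_cast
    have h6 : (2 : ℝ) * k ≤ s := by exact_mod_cast h2
    linarith
  have h4 : (k.factorial : ℝ) ≤ (k : ℝ) ^ k := by exact_mod_cast Nat.factorial_le_pow k
  have h5 : (((q : ℝ) / 200) ^ k) ^ 2 ≤ ((k.factorial : ℝ) * s.choose k) ^ 2 :=
    pow_le_pow_left₀ (by positivity) h3 2
  -- multiply by the positive number `(q / 200) ^ (2 k)`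
  have h6 : (q.choose k : ℝ) * (((q : ℝ) / 200) ^ k) ^ 2 ≤
      ((s.choose k : ℝ) ^ 2 * (40000 * (k : ℝ) / q) ^ k) * (((q : ℝ) / 200) ^ k) ^ 2 := by
    have e1 : (40000 * (k : ℝ) / q) ^ k * (((q : ℝ) / 200) ^ k) ^ 2 = (q : ℝ) ^ k * (k : ℝ) ^ k := by
      rw [← pow_mul, mul_comm k 2, pow_mul, ← mul_pow, ← mul_pow]
      congr 1
      field_simp
      ring
    calc (q.choose k : ℝ) * (((q : ℝ) / 200) ^ k) ^ 2
        ≤ (q.choose k : ℝ) * ((k.factorial : ℝ) * s.choose k) ^ 2 := by gcongr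
      _ = ((q.choose k : ℝ) * k.factorial) * k.factorial * (s.choose k : ℝ) ^ 2 := by ring
      _ ≤ (q : ℝ) ^ k * (k : ℝ) ^ k * (s.choose k : ℝ) ^ 2 := by gcongr
      _ = _ := by rw [mul_assoc ((s.choose k : ℝ) ^ 2), e1]; ring
  exact le_of_mul_le_mul_right h6 (by positivity)

/-- the numerical part: with `L = log x`, `B = L ^ A`, `k = ⌈25 L / (A log L)⌉`, `X = B ^ k` one has
`x ^ 25 ≤ X ≤ x ^ 25 B` and `(40000 k / q) ^ k ≤ x ^ (50 / A) L ^ 2 / X`. -/
theorem num (x : ℕ) (A C₁ : ℝ) (hA : 3 ≤ A) (hC₁ : 0 < C₁) (q : ℕ)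
    (hL : Real.exp 1 ≤ Real.log x) (hL1 : 40000 * 52 * C₁ ≤ Real.log x)
    (hq : (Real.log x) ^ A ≤ C₁ * (q : ℝ) * Real.log (Real.log x + 2)) :
    ∃ k : ℕ, (x : ℝ) ^ (25 : ℝ) ≤ ((Real.log x) ^ A) ^ k ∧
      ((Real.log x) ^ A) ^ k ≤ (x : ℝ) ^ (25 : ℝ) * (Real.log x) ^ A ∧
      0 < q ∧ 200 * (k : ℝ) ≤ q ∧
      (40000 * (k : ℝ) / q) ^ k * ((Real.log x) ^ A) ^ k ≤
        (x : ℝ) ^ (50 / A) * (Real.log x) ^ (2 : ℝ) := by
  set L := Real.log x with hLdef
  have he : (2 : ℝ) ≤ Real.exp 1 := by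
    have := Real.add_one_le_exp (1 : ℝ)
    linarith
  have hL0 : 0 < L := by linarith
  have hx0 : 0 < (x : ℝ) := by
    rcases Nat.eq_zero_or_pos x with h | h
    · rw [hLdef, h] at hL0
      simp at hL0
    · exact_mod_cast h
  have hxe : Real.exp L = x := Real.exp_log hx0
  set l := Real.log L with hldef
  have hle : Real.exp l = L := Real.exp_log hL0
  have hl1 : 1 ≤ l := by
    rw [hldef, Real.le_log_iff_exp_le hL0]
    exact hL
  have hlL : l ≤ L := (Real.log_le_sub_one_of_pos hL0).trans (by linarith)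
  have hA0 : 0 < A := by linarith
  have hBe : L ^ A = Real.exp (A * l) := by
    rw [Real.rpow_def_of_pos hL0, mul_comm]
  set k := ⌈25 * L / (A * l)⌉₊ with hk
  have hAl : 0 < A * l := by positivity
  have hk1 : 25 * L / (A * l) ≤ k := Nat.le_ceil _
  have hk2 : (k : ℝ) < 25 * L / (A * l) + 1 := Nat.ceil_lt_add_one (by positivity)
  have hk3 : 25 * L ≤ k * (A * l) := by rwa [div_le_iff₀ hAl] at hk1
  have hk4 : k * (A * l) ≤ 25 * L + A * l := by
    have : (k : ℝ) * (A * l) ≤ (25 * L / (A * l) + 1) * (A * l) :=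
      mul_le_mul_of_nonneg_right hk2.le hAl.le
    rw [add_mul, div_mul_cancel₀ _ hAl.ne', one_mul] at this
    exact this
  have hBk : (L ^ A) ^ k = Real.exp (k * (A * l)) := by
    rw [hBe, ← Real.exp_nat_mul]
  have hx25 : (x : ℝ) ^ (25 : ℝ) = Real.exp (25 * L) := by
    rw [Real.rpow_def_of_pos hx0, mul_comm]
  -- bounds for `k`
  have hkL : (k : ℝ) ≤ 26 * L := by
    have h1 : 25 * L / (A * l) ≤ 25 * L := div_le_self (by positivity) (by nlinarith)
    linarith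
  have hkl : (k : ℝ) * l ≤ 25 * L / A + l := by
    have h1 : (k : ℝ) * l ≤ (25 * L / (A * l) + 1) * l :=
      mul_le_mul_of_nonneg_right hk2.le (by linarith)
    have h2 : (25 * L / (A * l) + 1) * l = 25 * L / A + l := by
      field_simp
    linarith
  have hlog2 : Real.log (L + 2) ≤ 2 * l := by
    have h1 : L + 2 ≤ L ^ 2 := by nlinarith
    have h2 : Real.log (L + 2) ≤ Real.log (L ^ 2) := Real.log_le_log (by linarith) h1
    rw [Real.log_pow] at h2
    exact_mod_cast h2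
  have hlogpos : 0 < Real.log (L + 2) := Real.log_pos (by linarith)
  have hBpos : 0 < L ^ A := Real.rpow_pos_of_pos hL0 A
  have hq0 : 0 < (q : ℝ) := by
    by_contra hcon
    have hq1 : (q : ℝ) = 0 := le_antisymm (not_lt.1 hcon) (Nat.cast_nonneg q)
    rw [hq1] at hq
    simp only [mul_zero, zero_mul] at hq
    linarith
  have hqB : L ^ A ≤ C₁ * q * (2 * l) := hq.trans (by gcongr)
  refine ⟨k, ?_, ?_, by exact_mod_cast hq0, ?_, ?_⟩
  · rw [hx25, hBk]
    exact Real.exp_le_exp.2 hk3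
  · rw [hx25, hBk, hBe, ← Real.exp_add]
    exact Real.exp_le_exp.2 hk4
  · -- `200 k ≤ q`
    have h1 : L ^ (3 : ℝ) ≤ L ^ A := Real.rpow_le_rpow_of_exponent_le (by linarith) hA
    have h2 : L ^ (3 : ℝ) = L ^ 3 := by exact_mod_cast Real.rpow_natCast L 3
    rw [h2] at h1
    have h3 : L ^ 3 ≤ C₁ * q * (2 * L) := h1.trans (hqB.trans (by gcongr))
    have h4 : L ^ 2 ≤ C₁ * q * 2 := by
      have : L ^ 2 * L ≤ (C₁ * q * 2) * L := by nlinarith
      exact le_of_mul_le_mul_right this hL0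
    have h5 : (40000 * 52 * C₁) * L ≤ C₁ * q * 2 := by nlinarith
    have h6 : C₁ * (40000 * 52 * L) ≤ C₁ * (q * 2) := by linarith
    have h7 := le_of_mul_le_mul_left h6 hC₁
    linarith
  · have h1 : 40000 * (k : ℝ) / q * L ^ A ≤ (40000 * 52 * C₁) * L := by
      rw [div_mul_eq_mul_div, div_le_iff₀ hq0]
      calc 40000 * (k : ℝ) * L ^ A ≤ 40000 * (k : ℝ) * (C₁ * q * (2 * l)) := by gcongr
        _ = 80000 * C₁ * q * (k * l) := by ring
        _ ≤ 80000 * C₁ * q * (25 * L / A + l) := by gcongr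
        _ ≤ 80000 * C₁ * q * (25 * L + L) := by
            gcongr
            exact div_le_self (by positivity) (by linarith)
        _ = _ := by ring
    have h2 : 40000 * (k : ℝ) / q * L ^ A ≤ L ^ 2 := by
      refine h1.trans ?_
      rw [sq]
      gcongr
    rw [← mul_pow]
    calc (40000 * (k : ℝ) / q * L ^ A) ^ k ≤ (L ^ 2) ^ k := pow_le_pow_left₀ (by positivity) h2 k
      _ = Real.exp (2 * (k * l)) := by
          rw [← pow_mul, ← hle, ← Real.exp_nat_mul]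
          congr 1
          push_cast
          ring
      _ ≤ Real.exp (50 / A * L + 2 * l) := by
          apply Real.exp_le_exp.2
          have : 2 * (25 * L / A + l) = 50 / A * L + 2 * l := by
            field_simp
            ring
          linarith
      _ = (x : ℝ) ^ (50 / A) * L ^ (2 : ℝ) := by
          rw [Real.exp_add, Real.rpow_def_of_pos hx0, Real.rpow_def_of_pos hL0,
            mul_comm (Real.log x), mul_comm (Real.log L)]

/-- **CNT** -/
theorem t_CNT (hB : S_BAS) (hLow : S_LOW) : S_CNT := by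
  intro δ hδ
  obtain ⟨A₀, hA₀, hlow⟩ := hLow δ hδ
  obtain ⟨Cb, hCb, hbas⟩ := hB (δ / 100) (by positivity)
  set A : ℝ := max A₀ (max 400 (400 / δ)) with hAdef
  have hA1 : A₀ ≤ A := le_max_left _ _
  have hA2 : 400 ≤ A := (le_max_left _ _).trans (le_max_right _ _)
  have hA3 : 400 / δ ≤ A := (le_max_right _ _).trans (le_max_right _ _)
  have hA0 : 0 < A := by linarith
  have hAδ : 50 / A ≤ δ / 8 := by
    rw [div_le_iff₀ hδ] at hA3
    rw [div_le_iff₀ hA0]
    linarith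
  have hA8 : 50 / A ≤ 1 / 8 := by
    rw [div_le_iff₀ hA0]
    linarith
  obtain ⟨C₁, hC₁, x₀, hx₀, hlow2⟩ := hlow A hA1
  have hlog : Tendsto (fun x : ℕ => Real.log (x : ℝ)) atTop atTop :=
    Real.tendsto_log_atTop.comp tendsto_natCast_atTop_atTop
  have ev : ∀ᶠ x : ℕ in atTop, x₀ ≤ x ∧ Real.exp 1 ≤ Real.log x ∧
      40000 * 52 * C₁ ≤ Real.log x ∧
      (Real.log x) ^ (A * (δ / 100) + 2) ≤ (x : ℝ) ^ (δ / 8) ∧
      2 * Cb * (Real.log x) ^ (2 : ℝ) ≤ (x : ℝ) ^ (1 : ℝ) := by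
    refine (eventually_ge_atTop x₀).and ((hlog.eventually_ge_atTop _).and
      ((hlog.eventually_ge_atTop _).and (?_ : _)))
    have h1 := (isLittleO_log_rpow_rpow_atTop (A * (δ / 100) + 2)
      (show 0 < δ / 8 by positivity)).bound one_pos
    have h2 := (isLittleO_log_rpow_rpow_atTop (2 : ℝ)
      (show (0 : ℝ) < 1 by norm_num)).bound (show 0 < 1 / (2 * Cb) by positivity)
    have h1' := tendsto_natCast_atTop_atTop (R := ℝ) |>.eventually h1
    have h2' := tendsto_natCast_atTop_atTop (R := ℝ) |>.eventually h2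
    filter_upwards [h1', h2', hlog.eventually_ge_atTop 0] with x h3 h4 h5
    rw [one_mul, Real.norm_of_nonneg (Real.rpow_nonneg h5 _),
      Real.norm_of_nonneg (by positivity)] at h3
    rw [Real.norm_of_nonneg (Real.rpow_nonneg h5 _), Real.norm_of_nonneg (by positivity)] at h4
    refine ⟨h3, ?_⟩
    calc 2 * Cb * (Real.log x) ^ (2 : ℝ) ≤ 2 * Cb * (1 / (2 * Cb) * (x : ℝ) ^ (1 : ℝ)) := by gcongr
      _ = (x : ℝ) ^ (1 : ℝ) := by
          field_simp
  obtain ⟨x₁, hx₁⟩ := eventually_atTop.1 ev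
  refine ⟨A, C₁ + 2 * Cb + (x₁ + 1), hA0, by positivity, fun x hx E hE => ?_⟩
  have hx0 : (0 : ℝ) < x := by
    have : 0 < x := by omega
    exact_mod_cast this
  have hx1 : (1 : ℝ) ≤ x := by
    have : 1 ≤ x := by omega
    exact_mod_cast this
  have hxδ : 1 ≤ (x : ℝ) ^ δ := Real.one_le_rpow hx1 hδ.le
  rcases lt_or_ge x x₁ with hlt | hge
  · -- small `x`
    have h1 : E.card ≤ x + 1 := by
      have : E ⊆ Finset.range (x + 1) := fun p hp => by
        rw [Finset.mem_range]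
        have := (hE p hp).2.1
        omega
      simpa using Finset.card_le_card this
    have h2 : (E.card : ℝ) ≤ x₁ + 1 := by
      have : E.card ≤ x₁ + 1 := by omega
      exact_mod_cast this
    calc (E.card : ℝ) ≤ (x₁ + 1) := h2
      _ ≤ (C₁ + 2 * Cb + (x₁ + 1)) * 1 := by linarith
      _ ≤ _ := by gcongr
  · obtain ⟨hxx₀, hL, hL1, hLδ, hLx⟩ := hx₁ x hge
    obtain ⟨Q, hQ, hQc, hcount⟩ := hlow2 x hxx₀
    obtain ⟨k, hX1, hX2, hq, hkq, hM⟩ := num x A C₁ (by linarith) hC₁ Q.card hL hL1 hQc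
    set L := Real.log x with hLdef
    have hL0 : 0 < L := lt_of_lt_of_le (Real.exp_pos 1) hL
    set X : ℝ := (L ^ A) ^ k with hXdef
    have hXpos : 0 < X := pow_pos (Real.rpow_pos_of_pos hL0 A) k
    have hX0 : 1 ≤ X := le_trans (Real.one_le_rpow hx1 (by norm_num)) hX1
    set q := Q.card with hqdef
    have hq0 : (0 : ℝ) < q := by exact_mod_cast hq
    set s := ⌈(q : ℝ) / 100⌉₊ with hs
    have hs1 : (q : ℝ) / 100 ≤ s := Nat.le_ceil _
    have hks : 2 * k ≤ s := by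
      have : (2 : ℝ) * k ≤ s := by linarith
      exact_mod_cast this
    set M : ℝ := (40000 * (k : ℝ) / q) ^ k with hMdef
    have hM0 : 0 ≤ M := by positivity
    have hch : (q.choose k : ℝ) ≤ ((s.choose k : ℝ)) ^ 2 * M := choose_bd q s k hq hs1 hks
    have hc0 : (0 : ℝ) < (s.choose k : ℝ) := by
      exact_mod_cast Nat.choose_pos (by omega : k ≤ s)
    classical
    set E1 := E.filter (fun p => (q : ℝ) ≤ 100 * ({r ∈ (Q : Set ℕ) | Spl p r}.ncard : ℝ)) with hE1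
    set E2 := E.filter (fun p => ¬ (q : ℝ) ≤ 100 * ({r ∈ (Q : Set ℕ) | Spl p r}.ncard : ℝ)) with hE2
    have hsum : E1.card + E2.card = E.card := Finset.card_filter_add_card_filter_not _
    -- the second part
    have h2 : (E2.card : ℝ) ≤ C₁ * (x : ℝ) ^ δ := by
      refine le_trans ?_ hcount
      have hsub : E2 ⊆ {p ∈ Finset.Icc 1 x | p.Prime ∧
          ((100 : ℝ) * ({q ∈ (Q : Set ℕ) | Spl p q}.ncard : ℝ) < Q.card)} := by
        intro p hp
        rw [hE2, Finset.mem_filter] at hp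
        rw [Finset.mem_filter, Finset.mem_Icc]
        exact ⟨⟨(hE p hp.1).1.one_lt.le, (hE p hp.1).2.1⟩, (hE p hp.1).1, not_le.1 hp.2⟩
      exact_mod_cast Finset.card_le_card hsub
    -- the first part
    have hb := hbas x k s X (L ^ A) Q E1 hX0 hQ le_rfl fun p hp => by
      rw [hE1, Finset.mem_filter] at hp
      refine ⟨(hE p hp.1).1, (hE p hp.1).2.1, (hE p hp.1).2.2, ?_⟩
      rw [hs, Nat.ceil_le]
      linarith [hp.2]
    have hb2 : (E1.card : ℝ) ≤ Cb * (X ^ (1 + δ / 100) + E1.card * (x : ℝ) ^ 24 / X) * M := by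
      have h3 : (E1.card : ℝ) * (s.choose k : ℝ) ^ 2 ≤
          (Cb * (X ^ (1 + δ / 100) + E1.card * (x : ℝ) ^ 24 / X) * M) * (s.choose k : ℝ) ^ 2 := by
        refine hb.trans ?_
        calc Cb * (X ^ (1 + δ / 100) + E1.card * (x : ℝ) ^ 24 / X) * (q.choose k : ℝ)
            ≤ Cb * (X ^ (1 + δ / 100) + E1.card * (x : ℝ) ^ 24 / X) *
                (((s.choose k : ℝ)) ^ 2 * M) := by gcongr
          _ = _ := by ring
      exact le_of_mul_le_mul_right h3 (by positivity)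
    have hMX : M ≤ (x : ℝ) ^ (50 / A) * L ^ (2 : ℝ) / X := by
      rw [le_div_iff₀ hXpos]
      exact hM
    have hhalf : Cb * ((x : ℝ) ^ 24 / X) * M ≤ 1 / 2 := by
      have h3 : (x : ℝ) ^ (50 / A) ≤ (x : ℝ) ^ (1 : ℝ) :=
        Real.rpow_le_rpow_of_exponent_le hx1 (by linarith)
      have h4 : (x : ℝ) ^ (25 : ℝ) = (x : ℝ) ^ 25 := by exact_mod_cast Real.rpow_natCast (x : ℝ) 25
      rw [Real.rpow_one] at h3 hLx
      rw [h4] at hX1
      have h5 : Cb * ((x : ℝ) ^ 24 / X) * M ≤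
          Cb * ((x : ℝ) ^ 24 / (x : ℝ) ^ 25) * ((x : ℝ) * L ^ (2 : ℝ) / (x : ℝ) ^ 25) := by
        have h6 : (0 : ℝ) ≤ L ^ (2 : ℝ) := Real.rpow_nonneg hL0.le _
        refine mul_le_mul ?_ (hMX.trans ?_) hM0 (by positivity)
        · gcongr
        · gcongr
      have h6 : Cb * ((x : ℝ) ^ 24 / (x : ℝ) ^ 25) * ((x : ℝ) * L ^ (2 : ℝ) / (x : ℝ) ^ 25) =
          (2 * Cb * L ^ (2 : ℝ)) / (2 * (x : ℝ) ^ 25) := by
        field_simp
      rw [h6] at h5
      refine h5.trans ?_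
      rw [div_le_iff₀ (by positivity)]
      have h7 : (x : ℝ) ≤ (x : ℝ) ^ 25 := le_self_pow₀ hx1 (by norm_num)
      linarith
    have hE1b : (E1.card : ℝ) ≤ 2 * Cb * (X ^ (1 + δ / 100) * M) := by
      have h3 : Cb * (X ^ (1 + δ / 100) + E1.card * (x : ℝ) ^ 24 / X) * M =
          Cb * (X ^ (1 + δ / 100) * M) + (Cb * ((x : ℝ) ^ 24 / X) * M) * E1.card := by ring
      rw [h3] at hb2
      have h4 : (Cb * ((x : ℝ) ^ 24 / X) * M) * E1.card ≤ 1 / 2 * E1.card := by gcongr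
      linarith
    have hfin : X ^ (1 + δ / 100) * M ≤ (x : ℝ) ^ δ := by
      have h3 : X ^ (1 + δ / 100) = X * X ^ (δ / 100) := by
        rw [Real.rpow_add hXpos, Real.rpow_one]
      have h4 : X ^ (δ / 100) ≤ (x : ℝ) ^ (δ / 4) * L ^ (A * (δ / 100)) := by
        refine (Real.rpow_le_rpow hXpos.le hX2 (by positivity)).trans (le_of_eq ?_)
        rw [Real.mul_rpow (by positivity) (Real.rpow_nonneg hL0.le _), ← Real.rpow_mul hx0.le,
          ← Real.rpow_mul hL0.le]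
        congr 2
        ring
      have h5 : (x : ℝ) ^ (50 / A) ≤ (x : ℝ) ^ (δ / 8) := Real.rpow_le_rpow_of_exponent_le hx1 hAδ
      calc X ^ (1 + δ / 100) * M = X ^ (δ / 100) * (M * X) := by rw [h3]; ring
        _ ≤ ((x : ℝ) ^ (δ / 4) * L ^ (A * (δ / 100))) * ((x : ℝ) ^ (50 / A) * L ^ (2 : ℝ)) := by
            gcongr
        _ ≤ ((x : ℝ) ^ (δ / 4) * L ^ (A * (δ / 100))) * ((x : ℝ) ^ (δ / 8) * L ^ (2 : ℝ)) := by
            gcongr
        _ = (x : ℝ) ^ (δ / 4) * (x : ℝ) ^ (δ / 8) * L ^ (A * (δ / 100) + 2) := by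
            rw [Real.rpow_add hL0]
            ring
        _ ≤ (x : ℝ) ^ (δ / 4) * (x : ℝ) ^ (δ / 8) * (x : ℝ) ^ (δ / 8) := by gcongr
        _ = (x : ℝ) ^ (δ / 2) := by
            rw [← Real.rpow_add hx0, ← Real.rpow_add hx0]
            congr 1
            ring
        _ ≤ (x : ℝ) ^ δ := Real.rpow_le_rpow_of_exponent_le hx1 (by linarith)
    have h3 : (E.card : ℝ) = E1.card + E2.card := by exact_mod_cast hsum.symm
    rw [h3]
    calc (E1.card : ℝ) + E2.card ≤ 2 * Cb * (X ^ (1 + δ / 100) * M) + C₁ * (x : ℝ) ^ δ :=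
          add_le_add hE1b h2
      _ ≤ 2 * Cb * (x : ℝ) ^ δ + C₁ * (x : ℝ) ^ δ := by gcongr
      _ ≤ (C₁ + 2 * Cb + (x₁ + 1)) * (x : ℝ) ^ δ := by
          have : (0 : ℝ) ≤ (x₁ + 1) * (x : ℝ) ^ δ := by positivity
          nlinarith

end Pool.Agent.J4H67.GP
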